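import Pool.Agent.Lib.MP_0b6b0e_gt.ZB.Defs

/-!
Module LC4: part (4) of LC. A gauge function which is at every point one of `P`, `P (-·)` is one
of them everywhere, if `P` has no common subgradient with its reflection.
-/

set_option autoImplicit false

open Set Filter Topology MeasureTheory

open scoped InnerProductSpace

namespace Pool.Agent.Lib.MP_0b6b0e_gt.ZB.H29

section

variable {E : Type*} [NormedAddCommGroup E] [InnerProductSpace ℝ E]

theorem isG_rf {P : E → ℝ} (h : IsG P) : IsG (rf P) where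
  add := fun x y => by
    have := h.add (-x) (-y)
    have e : -(x + y) = -x + -y := neg_add x y
    show P (-(x + y)) ≤ P (-x) + P (-y)
    rw [e]
    exact this
  smul := fun c hc x => by
    have := h.smul c hc (-x)
    simpa [rf, smul_neg] using this
  lower := by
    obtain ⟨c, hc, h1⟩ := h.lower
    exact ⟨c, hc, fun x => by simpa [rf] using h1 (-x)⟩
  upper := by
    obtain ⟨c, hc, h1⟩ := h.upper
    exact ⟨c, hc, fun x => by simpa [rf] using h1 (-x)⟩

theorem smooth_rf {P : E → ℝ} (h : Smooth P) : Smooth (rf P) := fun x hx => by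
  have h1 : DifferentiableAt ℝ P (-x) := h (-x) (neg_ne_zero.2 hx)
  exact DifferentiableAt.comp x h1 differentiableAt_id.neg

theorem isG_zero {P : E → ℝ} (h : IsG P) : P 0 = 0 := by
  have := h.smul 0 le_rfl 0
  simpa using this

theorem fderiv_eq_of_closure {f g : E → ℝ} {O : Set E} (hO : IsOpen O) (hfg : ∀ x ∈ O, f x = g x)
    {y : E} (hy : y ∈ closure O) (cf : ContinuousAt (fderiv ℝ f) y)
    (cg : ContinuousAt (fderiv ℝ g) y) (hf : ContinuousAt f y) (hg : ContinuousAt g y) :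
    fderiv ℝ f y = fderiv ℝ g y ∧ f y = g y := by
  have : NeBot (𝓝[O] y) := mem_closure_iff_nhdsWithin_neBot.1 hy
  have h1 : ∀ z ∈ O, fderiv ℝ f z = fderiv ℝ g z := fun z hz =>
    Filter.EventuallyEq.fderiv_eq (by
      filter_upwards [hO.mem_nhds hz] with x hx using hfg x hx)
  constructor
  · have t1 : Tendsto (fderiv ℝ f) (𝓝[O] y) (𝓝 (fderiv ℝ f y)) := cf.tendsto.mono_left inf_le_left
    have t2 : Tendsto (fderiv ℝ g) (𝓝[O] y) (𝓝 (fderiv ℝ g y)) := cg.tendsto.mono_left inf_le_left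
    refine tendsto_nhds_unique t1 (t2.congr' ?_)
    filter_upwards [self_mem_nhdsWithin] with z hz using (h1 z hz).symm
  · have t1 : Tendsto f (𝓝[O] y) (𝓝 (f y)) := hf.tendsto.mono_left inf_le_left
    have t2 : Tendsto g (𝓝[O] y) (𝓝 (g y)) := hg.tendsto.mono_left inf_le_left
    refine tendsto_nhds_unique t1 (t2.congr' ?_)
    filter_upwards [self_mem_nhdsWithin] with z hz using (hfg z hz).symm

end

theorem isOpen_nee {E : Type*} [NormedAddCommGroup E] {f g : E → ℝ}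
    (hf : ∀ x, x ≠ 0 → ContinuousAt f x) (hg : ∀ x, x ≠ 0 → ContinuousAt g x) :
    IsOpen {x : E | x ≠ 0 ∧ f x ≠ g x} := by
  rw [isOpen_iff_mem_nhds]
  rintro x ⟨hx, hne⟩
  have h1 : ∀ᶠ y in 𝓝 x, y ≠ 0 := isOpen_compl_singleton.mem_nhds hx
  have h2 : ∀ᶠ y in 𝓝 x, f y - g y ≠ 0 :=
    ((hf x hx).sub (hg x hx)).eventually_ne (sub_ne_zero.2 hne)
  filter_upwards [h1, h2] with y a b using ⟨a, sub_ne_zero.1 b⟩

theorem lc4 (hDV : DVStatement) (n : ℕ) (hn : 2 ≤ n) (P p : EuclideanSpace ℝ (Fin n) → ℝ)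
    (hP : IsG P) (hp : IsG p) (sP : Smooth P) (sp : Smooth p) (nc : NoCommon P)
    (h : ∀ x, p x = P x ∨ p x = P (-x)) :
    (∀ x, p x = P x) ∨ ∀ x, p x = P (-x) := by
  have hQ : IsG (rf P) := isG_rf hP
  have sQ : Smooth (rf P) := smooth_rf sP
  have D := hDV.2.1 n
  by_contra hcon
  rw [not_or] at hcon
  obtain ⟨h1, h2⟩ := hcon
  push Not at h1 h2
  obtain ⟨a, ha⟩ := h1
  obtain ⟨b, hb⟩ := h2
  have ha0 : a ≠ 0 := by
    rintro rfl
    exact ha (by rw [isG_zero hP, isG_zero hp])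
  have hb0 : b ≠ 0 := by
    rintro rfl
    exact hb (by rw [neg_zero, isG_zero hP, isG_zero hp])
  have cP : ∀ x, x ≠ 0 → ContinuousAt P x := fun x hx => (sP x hx).continuousAt
  have cQ : ∀ x, x ≠ 0 → ContinuousAt (rf P) x := fun x hx => (sQ x hx).continuousAt
  have cp : ∀ x, x ≠ 0 → ContinuousAt p x := fun x hx => (sp x hx).continuousAt
  set O1 : Set (EuclideanSpace ℝ (Fin n)) := {x | x ≠ 0 ∧ p x ≠ rf P x} with hO1
  set O2 : Set (EuclideanSpace ℝ (Fin n)) := {x | x ≠ 0 ∧ p x ≠ P x} with hO2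
  have o1 : IsOpen O1 := isOpen_nee cp cQ
  have o2 : IsOpen O2 := isOpen_nee cp cP
  have e1 : ∀ x ∈ O1, p x = P x := fun x hx => (h x).resolve_right hx.2
  have e2 : ∀ x ∈ O2, p x = rf P x := fun x hx => (h x).resolve_left hx.2
  have hr : 1 < Module.rank ℝ (EuclideanSpace ℝ (Fin n)) := by
    rw [← Module.finrank_eq_rank, finrank_euclideanSpace_fin]
    exact_mod_cast hn
  have hconn : IsPreconnected ({0}ᶜ : Set (EuclideanSpace ℝ (Fin n))) :=
    (isConnected_compl_singleton_of_one_lt_rank hr 0).isPreconnected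
  have hcov : ({0}ᶜ : Set (EuclideanSpace ℝ (Fin n))) ⊆ closure O1 ∪ closure O2 := by
    intro x hx
    have hx0 : x ≠ 0 := hx
    rw [← closure_union]
    by_contra hxc
    have hU : (closure (O1 ∪ O2))ᶜ ∈ 𝓝 x := isClosed_closure.isOpen_compl.mem_nhds hxc
    have hPQ : P =ᶠ[𝓝 x] rf P := by
      filter_upwards [hU, isOpen_compl_singleton.mem_nhds hx] with y hy hy0
      have hy1 : y ∉ O1 ∪ O2 := fun hmem => hy (subset_closure hmem)
      have q1 : p y = rf P y := by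
        by_contra hne
        exact hy1 (Or.inl ⟨hy0, hne⟩)
      have q2 : p y = P y := by
        by_contra hne
        exact hy1 (Or.inr ⟨hy0, hne⟩)
      rw [← q1, ← q2]
    have hf : fderiv ℝ P x = fderiv ℝ (rf P) x := hPQ.fderiv_eq
    obtain ⟨u1, u2, -⟩ := D P hP sP x hx0
    obtain ⟨v1, v2, -⟩ := D (rf P) hQ sQ x hx0
    refine nc x hx0 (fderiv ℝ P x) u1 u2 ?_ ?_
    · intro y
      rw [hf]
      exact v1 y
    · rw [hf]
      exact v2
  have hne1 : (({0}ᶜ : Set (EuclideanSpace ℝ (Fin n))) ∩ closure O1).Nonempty :=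
    ⟨b, hb0, subset_closure ⟨hb0, hb⟩⟩
  have hne2 : (({0}ᶜ : Set (EuclideanSpace ℝ (Fin n))) ∩ closure O2).Nonempty :=
    ⟨a, ha0, subset_closure ⟨ha0, ha⟩⟩
  obtain ⟨y, hy0, hy1, hy2⟩ := isPreconnected_closed_iff.1 hconn (closure O1) (closure O2)
    isClosed_closure isClosed_closure hcov hne1 hne2
  have hy0' : y ≠ 0 := hy0
  obtain ⟨u1, u2, u3⟩ := D P hP sP y hy0'
  obtain ⟨v1, v2, v3⟩ := D (rf P) hQ sQ y hy0'
  obtain ⟨w1, w2, w3⟩ := D p hp sp y hy0'
  obtain ⟨f1, g1⟩ := fderiv_eq_of_closure o1 e1 hy1 w3 u3 (cp y hy0') (cP y hy0')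
  obtain ⟨f2, g2⟩ := fderiv_eq_of_closure o2 e2 hy2 w3 v3 (cp y hy0') (cQ y hy0')
  refine nc y hy0' (fderiv ℝ P y) u1 u2 ?_ ?_
  · intro z
    rw [← f1, f2]
    exact v1 z
  · rw [← f1, f2]
    exact v2

end Pool.Agent.Lib.MP_0b6b0e_gt.ZB.H29
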